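import Pool.Agent.Lib.MP_182bbb_co.AR.Iface

/-!
# MP_182bbb_co : the local inequality for books
-/

open Finset MP_182bbb_co.H5

set_option autoImplicit false

namespace MP_182bbb_co.AR.H66

lemma sum_swap {V : Type*} [DecidableEq V] (L : Finset V) (m : ℕ) (F : V → Finset V → ℝ) :
    ∑ C ∈ L.powersetCard (m + 1), ∑ c ∈ C, F c (C.erase c) =
      ∑ c ∈ L, ∑ C ∈ (L.erase c).powersetCard m, F c C := by
  rw [Finset.sum_sigma', Finset.sum_sigma']
  refine Finset.sum_bij' (fun p _ => ⟨p.2, p.1.erase p.2⟩) (fun p _ => ⟨insert p.1 p.2, p.1⟩)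
    ?_ ?_ ?_ ?_ ?_
  · rintro ⟨C, c⟩ h
    simp only [mem_sigma, mem_powersetCard] at h ⊢
    obtain ⟨⟨h1, h2⟩, h3⟩ := h
    refine ⟨h1 h3, ?_, ?_⟩
    · exact Finset.erase_subset_erase c h1
    · rw [card_erase_of_mem h3, h2]; rfl
  · rintro ⟨c, C⟩ h
    simp only [mem_sigma, mem_powersetCard] at h ⊢
    obtain ⟨h1, h2, h3⟩ := h
    have h4 : c ∉ C := fun h5 => (Finset.mem_erase.1 (h2 h5)).1 rfl
    refine ⟨⟨?_, ?_⟩, mem_insert_self _ _⟩
    · intro v hv
      rcases mem_insert.1 hv with rfl | hv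
      · exact h1
      · exact (Finset.mem_erase.1 (h2 hv)).2
    · rw [card_insert_of_notMem h4, h3]
  · rintro ⟨C, c⟩ h
    simp only [mem_sigma, mem_powersetCard] at h
    simp only [Finset.insert_erase h.2]
  · rintro ⟨c, C⟩ h
    simp only [mem_sigma, mem_powersetCard] at h
    obtain ⟨h1, h2, h3⟩ := h
    have h4 : c ∉ C := fun h5 => (Finset.mem_erase.1 (h2 h5)).1 rfl
    simp only [Finset.erase_insert h4]
  · rintro ⟨C, c⟩ h
    rfl

universe u v

theorem bookloc (hP : PAGES_S.{u, v}) (hA : AVG_S.{v}) : BOOKLOC_S.{u, v} := by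
  intro α V _ _ _ r H G hr hH hG hcopy f hf
  obtain ⟨hHne, hHu, q, hq, hqH⟩ := hH
  have hN : 0 < H.card := hHne.card_pos
  obtain ⟨k, hk⟩ : ∃ k, H.card = k + 1 := ⟨H.card - 1, by omega⟩
  set L := lk G f with hL
  set l := dg G f with hl
  have hLl : L.card = l := rfl
  set a : V → V → ℕ := fun c x => dg G (insert c (f.erase x)) with ha
  set P : V → V → Finset V := fun c x => lk G (insert c (f.erase x)) with hPdef
  set S : ℝ := ∑ c ∈ L, ∑ x ∈ f, (1 : ℝ) / (a c x : ℝ) with hS
  have hS0 : 0 ≤ S := Finset.sum_nonneg fun c _ => Finset.sum_nonneg fun x _ => by positivity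
  rcases Nat.lt_or_ge l H.card with hlt | hge
  · have h1 : (l : ℝ) < H.card := by exact_mod_cast hlt
    have h2 : (0 : ℝ) ≤ H.card * S := mul_nonneg (Nat.cast_nonneg _) hS0
    change (l : ℝ) - H.card ≤ H.card * S
    linarith
  -- sum over all C
  have hsum : ∀ C ∈ L.powersetCard H.card, (1 : ℝ) ≤ 1 / ((l : ℝ) - H.card + 1) +
      ∑ c ∈ C, ∑ x ∈ f, (1 : ℝ) / ((a c x : ℝ) - (P c x ∩ C.erase c).card) := by
    intro C hC
    rw [mem_powersetCard] at hC
    exact hP α V r H G hr ⟨hHne, hHu, q, hq, hqH⟩ hG hcopy f hf C hC.1 hC.2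
  have h1 := Finset.sum_le_sum hsum
  rw [Finset.sum_const, card_powersetCard, hLl, Finset.sum_add_distrib, Finset.sum_const,
    card_powersetCard, hLl, hk,
    sum_swap L k (fun c C => ∑ x ∈ f, (1 : ℝ) / ((a c x : ℝ) - (P c x ∩ C).card))] at h1
  -- the average
  have h2 : ∀ c ∈ L, ∑ C ∈ (L.erase c).powersetCard k, ∑ x ∈ f,
      (1 : ℝ) / ((a c x : ℝ) - (P c x ∩ C).card) ≤ (l.choose k : ℝ) * ∑ x ∈ f, 1 / (a c x : ℝ) := by
    intro c hc
    rw [Finset.sum_comm, Finset.mul_sum]
    refine Finset.sum_le_sum fun x hx => ?_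
    have hcf : c ∉ f ∧ insert c f ∈ G := by
      have := hc
      rw [hL, lk, mem_filter] at this
      exact this.2
    have hxc : x ≠ c := by rintro rfl; exact hcf.1 hx
    have hxP : x ∈ P c x := by
      simp only [hPdef, lk, mem_filter, mem_univ, true_and]
      constructor
      · simp [hxc]
      · have : insert x (insert c (f.erase x)) = insert c f := by
          rw [Finset.insert_comm, Finset.insert_erase hx]
        rw [this]; exact hcf.2
    have hxL : x ∉ L := by
      rw [hL, lk, mem_filter]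
      rintro ⟨-, h, -⟩
      exact h hx
    have hcard : (P c x ∩ L.erase c).card + 1 ≤ a c x := by
      have h3 : x ∉ P c x ∩ L.erase c := by
        rw [mem_inter, mem_erase]
        rintro ⟨-, -, h⟩
        exact hxL h
      rw [← card_insert_of_notMem h3]
      exact card_le_card (Finset.insert_subset hxP Finset.inter_subset_left)
    have h4 := hA V (L.erase c) (P c x) (a c x) k hcard
    have h5 : (L.erase c).card + 1 = l := Finset.card_erase_add_one hc
    rw [h5] at h4
    rw [mul_one_div]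
    exact h4
  have h3 := h1.trans (add_le_add_right (Finset.sum_le_sum h2) _)
  rw [← Finset.mul_sum, nsmul_eq_mul, nsmul_eq_mul, mul_one] at h3
  -- arithmetic
  have hch : (l.choose (k + 1) : ℝ) * (k + 1) = l.choose k * ((l : ℝ) - k) := by
    have h4 := Nat.choose_succ_right_eq l k
    have h5 : k ≤ l := by omega
    have h6 : ((l - k : ℕ) : ℝ) = (l : ℝ) - k := Nat.cast_sub h5
    rw [← h6]
    exact_mod_cast h4
  have hpos : (0 : ℝ) < l.choose k := by
    exact_mod_cast Nat.choose_pos (by omega)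
  have hlk : (k : ℝ) + 1 ≤ l := by rw [hk] at hge; exact_mod_cast hge
  have hden : (0 : ℝ) < (l : ℝ) - ((k + 1 : ℕ) : ℝ) + 1 := by push_cast; linarith
  change (l : ℝ) - H.card ≤ H.card * S
  rw [hk]
  set X : ℝ := (l.choose (k + 1) : ℝ) with hX
  set Y : ℝ := (l.choose k : ℝ) with hY
  have hden2 : (l : ℝ) - ((k + 1 : ℕ) : ℝ) + 1 = l - k := by push_cast; ring
  rw [hden2] at h3 hden
  -- X ≤ X / (l - k) + Y * S
  have h7 : X * (1 / ((l : ℝ) - k)) * (k + 1) = Y := by
    rw [mul_one_div, div_mul_eq_mul_div, hch]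
    field_simp
  have h8 : X * (k + 1) ≤ Y + Y * S * (k + 1) := by
    have h9 : X * ((k : ℝ) + 1) ≤ (X * (1 / ((l : ℝ) - k)) + Y * S) * (k + 1) :=
      mul_le_mul_of_nonneg_right h3 (by positivity)
    rw [add_mul, h7] at h9
    exact h9
  rw [hch] at h8
  have h10 : Y * ((l : ℝ) - (k + 1)) ≤ Y * ((k + 1) * S) := by linarith
  have h11 := le_of_mul_le_mul_left h10 hpos
  push_cast
  exact h11

end MP_182bbb_co.AR.H66
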